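import Pool.Agent.Lib.MP_b5021c_nt.K.H50.Unk

namespace Pool.Agent.MP_b5021c_nt.H32

open Polynomial Filter Topology Pool.Agent.B5 Pool.Agent.MP_b5021c_nt.H50

noncomputable section

theorem toA_rev {ι : Type} [Fintype ι] [DecidableEq ι] (D : Finset ι → ℤ[X]) (N : ℕ)
    (h : ∀ S, (D S).natDegree ≤ N) :
    toA (rev N D) = sharp (toA D) * ((mu 1 N (by norm_num) : (A (ι → ℤ))ˣ) : A (ι → ℤ)) := by
  change toA (rev N D) = sharp (toA D) * AddMonoidAlgebra.single (fun _ => 1)
    (LaurentPolynomial.C 1 * LaurentPolynomial.T (N : ℤ))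
  unfold toA
  rw [map_sum, Finset.sum_mul, ← Equiv.sum_comp (compl_involutive (α := Finset ι)).toPerm]
  refine Finset.sum_congr rfl fun S _ => ?_
  have hS : ((compl_involutive (α := Finset ι)).toPerm) S = Sᶜ := rfl
  rw [hS, sharp_single', AddMonoidAlgebra.single_mul_single, neg_ind_add]
  congr 1
  change Polynomial.toLaurent ((D Sᶜᶜ).reflect N) = _
  rw [compl_compl, toLaurent_reflect N _ (h _), map_one, one_mul]

theorem sharp_sharp {L : Type} [AddCommGroup L] (G : A L) : sharp (sharp G) = G := by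
  ext a
  rw [sharp_coeff, sharp_coeff, neg_neg]
  simp

/-- `sharp` as a ring isomorphism. -/
def shE {L : Type} [AddCommGroup L] : A L ≃+* A L :=
  RingEquiv.ofRingHom sharp sharp (RingHom.ext sharp_sharp) (RingHom.ext sharp_sharp)

theorem sharp_irr {L : Type} [AddCommGroup L] {G : A L} (h : Irreducible G) :
    Irreducible (sharp G) := by
  have := (MulEquiv.irreducible_iff (shE (L := L)) (x := G)).2 h
  exact this

theorem ports {ι : Type} [Fintype ι] [DecidableEq ι] (D : Finset ι → ℤ[X]) (h : SpanK D) (i : ι) :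
    ∃ S, i ∈ S ∧ D S ≠ 0 := by
  by_contra hc
  push Not at hc
  have h1 : (⊤ : Submodule ℚ (ι → ℚ)) ≤ LinearMap.ker (LinearMap.proj (R := ℚ) (φ := fun _ : ι => ℚ) i) := by
    rw [← h]
    refine Submodule.span_le.2 ?_
    rintro v ⟨S, hS, rfl⟩
    have hi : i ∉ S := fun hi => hS (by rw [hc S hi]; simp)
    simp [hi]
  have h2 := h1 (Submodule.mem_top (x := (Pi.single i 1 : ι → ℚ)))
  simp at h2

theorem hir (hL : LikS) (hU : UnrS) : HirS := by
  intro ι _ _ D h0 hspan hirr hnu
  have hdeg : ∀ S, (D S).natDegree ≤ degz D := fun S =>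
    Finset.le_sup (f := fun S => (D S).natDegree) (Finset.mem_univ S)
  have hsi : Irreducible (sharp (toA D)) := sharp_irr hirr
  have hri : Irreducible (toA (rev (degz D) D)) := by
    rw [toA_rev D _ hdeg]
    exact (irreducible_mul_units _).2 hsi
  refine hL ι D (rev (degz D) D) hirr.ne_zero hri.ne_zero fun g h1 h2 => ?_
  rcases (hirr.dvd_iff).1 h1 with h3 | h3
  · exact h3
  · exfalso
    have h4 : toA D ∣ sharp (toA D) := by
      have h5 : toA D ∣ toA (rev (degz D) D) := h3.dvd.trans h2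
      rw [toA_rev D _ hdeg] at h5
      exact (Units.dvd_mul_right).1 h5
    rcases (hsi.dvd_iff).1 h4 with h5 | h5
    · exact hirr.not_isUnit h5
    · refine hnu (hU ι D ?_ (ports D hspan) h5)
      intro h6
      rw [h6] at h0
      simp at h0

end

end Pool.Agent.MP_b5021c_nt.H32
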